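import Pool.Agent.helper98.RPB.Defs

/-!
# RQ project, module CO: concentration of block frequencies
-/

set_option autoImplicit false

open scoped BigOperators

namespace Pool.Agent.helper18.RQ

open Pool.Agent.helper98.RPB

theorem CO_exp_le (y : ℝ) : Real.exp y ≤ y + Real.exp (y ^ 2) := by
  have h2 : y ^ 2 + 1 ≤ Real.exp (y ^ 2) := Real.add_one_le_exp _
  rcases le_total y 1 with h1 | h1
  · rcases le_total (-1) y with h0 | h0
    · have h := Real.abs_exp_sub_one_sub_id_le (x := y) (abs_le.mpr ⟨h0, h1⟩)
      have := (abs_le.mp h).2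
      linarith
    · have h3 : Real.exp y ≤ 1 := by
        rw [← Real.exp_zero]
        exact Real.exp_le_exp.mpr (by linarith)
      nlinarith
  · have h3 : Real.exp y ≤ Real.exp (y ^ 2) := Real.exp_le_exp.mpr (by nlinarith)
    linarith

theorem CO_sum_cons (D n : ℕ) (f : Word D (n + 1) → ℝ) :
    ∑ x, f x = ∑ x : Word D n, ∑ a : Fin D, f (Fin.cons a x) := by
  rw [Finset.sum_comm, ← Fintype.sum_prod_type']
  exact (Equiv.sum_comp (Fin.consEquiv (fun _ : Fin (n + 1) => Fin D)) f).symm

theorem exp_moment_le (D n : ℕ) (hD : 1 ≤ D) (F : Word D n → ℝ) (c : ℝ)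
    (hc : ∀ (x : Word D n) (i : Fin n) (a : Fin D), |F (Function.update x i a) - F x| ≤ c)
    (t : ℝ) :
    ∑ x, Real.exp (t * (F x - (∑ y, F y) / (D : ℝ) ^ n)) ≤
      (D : ℝ) ^ n * Real.exp (t ^ 2 * n * c ^ 2) := by
  have hD' : (0 : ℝ) < D := by exact_mod_cast hD
  induction n with
  | zero =>
    simp
  | succ n ih =>
    have hc0 : 0 ≤ c := by
      have := hc (fun _ => ⟨0, hD⟩) 0 ⟨0, hD⟩
      exact (abs_nonneg _).trans this
    set G : Word D n → ℝ := fun x => (∑ a : Fin D, F (Fin.cons a x)) / D with hG
    have hGc : ∀ (x : Word D n) (i : Fin n) (a : Fin D),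
        |G (Function.update x i a) - G x| ≤ c := by
      intro x i a
      have e : G (Function.update x i a) - G x =
          (∑ b : Fin D, (F (Function.update (Fin.cons b x : Word D (n + 1)) i.succ a) -
            F (Fin.cons b x))) / D := by
        simp only [hG]
        rw [← sub_div, ← Finset.sum_sub_distrib]
        congr 1
        refine Finset.sum_congr rfl fun b _ => ?_
        rw [Fin.cons_update]
      rw [e, abs_div, abs_of_pos hD', div_le_iff₀ hD']
      refine (Finset.abs_sum_le_sum_abs _ _).trans ?_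
      refine (Finset.sum_le_sum fun b _ => hc _ _ _).trans ?_
      rw [Finset.sum_const, Finset.card_univ, Fintype.card_fin, nsmul_eq_mul, mul_comm]
    have hsum : (∑ y, F y) / (D : ℝ) ^ (n + 1) = (∑ y, G y) / (D : ℝ) ^ n := by
      rw [CO_sum_cons, hG]
      simp only
      rw [← Finset.sum_div, div_div, pow_succ, mul_comm]
    have hmain := ih G hGc
    rw [hsum, CO_sum_cons]
    set m := (∑ y, G y) / (D : ℝ) ^ n with hm
    have hH : ∀ (x : Word D n) (a : Fin D), |F (Fin.cons a x) - G x| ≤ c := by
      intro x a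
      have e : F (Fin.cons a x) - G x =
          (∑ b : Fin D, (F (Fin.cons a x) - F (Fin.cons b x))) / D := by
        rw [Finset.sum_sub_distrib, sub_div, Finset.sum_const, Finset.card_univ,
          Fintype.card_fin, nsmul_eq_mul, mul_div_cancel_left₀ _ hD'.ne']
      rw [e, abs_div, abs_of_pos hD', div_le_iff₀ hD']
      refine (Finset.abs_sum_le_sum_abs _ _).trans ?_
      have : ∀ b : Fin D, |F (Fin.cons a x) - F (Fin.cons b x)| ≤ c := by
        intro b
        have h := hc (Fin.cons b x) 0 a
        rwa [Fin.update_cons_zero] at h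
      refine (Finset.sum_le_sum fun b _ => this b).trans ?_
      rw [Finset.sum_const, Finset.card_univ, Fintype.card_fin, nsmul_eq_mul, mul_comm]
    have hin : ∀ x : Word D n, ∑ a : Fin D, Real.exp (t * (F (Fin.cons a x) - G x)) ≤
        D * Real.exp (t ^ 2 * c ^ 2) := by
      intro x
      have h1 : ∀ a : Fin D, Real.exp (t * (F (Fin.cons a x) - G x)) ≤
          t * (F (Fin.cons a x) - G x) + Real.exp (t ^ 2 * c ^ 2) := by
        intro a
        refine (CO_exp_le _).trans ?_
        have : (t * (F (Fin.cons a x) - G x)) ^ 2 ≤ t ^ 2 * c ^ 2 := by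
          rw [mul_pow]
          refine mul_le_mul_of_nonneg_left ?_ (sq_nonneg _)
          exact sq_le_sq' (abs_le.mp (hH x a)).1 (abs_le.mp (hH x a)).2
        have := Real.exp_le_exp.mpr this
        linarith
      refine (Finset.sum_le_sum fun a _ => h1 a).trans ?_
      rw [Finset.sum_add_distrib, ← Finset.mul_sum, Finset.sum_sub_distrib]
      simp only [Finset.sum_const, Finset.card_univ, Fintype.card_fin, nsmul_eq_mul]
      have : (∑ a : Fin D, F (Fin.cons a x)) = D * G x := by
        simp only [hG]
        field_simp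
      rw [this]
      simp
    have hstep : ∑ x : Word D n, ∑ a : Fin D, Real.exp (t * (F (Fin.cons a x) - m)) ≤
        ∑ x : Word D n, Real.exp (t * (G x - m)) * (D * Real.exp (t ^ 2 * c ^ 2)) := by
      refine Finset.sum_le_sum fun x _ => ?_
      have e : ∀ a : Fin D, Real.exp (t * (F (Fin.cons a x) - m)) =
          Real.exp (t * (G x - m)) * Real.exp (t * (F (Fin.cons a x) - G x)) := by
        intro a
        rw [← Real.exp_add]
        congr 1
        ring
      rw [Finset.sum_congr rfl fun a _ => e a, ← Finset.mul_sum]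
      exact mul_le_mul_of_nonneg_left (hin x) (Real.exp_nonneg _)
    refine hstep.trans ?_
    rw [← Finset.sum_mul]
    refine (mul_le_mul_of_nonneg_right hmain (by positivity)).trans (le_of_eq ?_)
    have : t ^ 2 * ((n + 1 : ℕ) : ℝ) * c ^ 2 = t ^ 2 * n * c ^ 2 + t ^ 2 * c ^ 2 := by
      push_cast
      ring
    rw [this, Real.exp_add, pow_succ]
    ring

open Classical in
theorem CO_card_occurs (D n l : ℕ) (w : Word D l) (i : ℕ) (hi : i + l ≤ n) :
    ((Finset.univ.filter fun x : Word D n => Occurs x i w).card) = D ^ (n - l) := by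
  have e : (Finset.univ.filter fun x : Word D n => Occurs x i w) =
      Fintype.piFinset (fun p : Fin n =>
        if h : i ≤ p.val ∧ p.val < i + l then ({w ⟨p.val - i, by omega⟩} : Finset (Fin D))
        else Finset.univ) := by
    ext x
    simp only [Finset.mem_filter, Finset.mem_univ, true_and, Fintype.mem_piFinset]
    constructor
    · rintro ⟨_, h⟩ p
      split_ifs with hp
      · have := h ⟨p.val - i, by omega⟩
        rw [Finset.mem_singleton, ← this]
        congr 1
        ext
        simp only
        omega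
      · exact Finset.mem_univ _
    · intro h
      refine ⟨hi, fun j => ?_⟩
      have := h ⟨i + j, by omega⟩
      have hp : i ≤ i + j.val ∧ i + j.val < i + l := ⟨by omega, by omega⟩
      simp only [hp, and_self, dif_pos, Finset.mem_singleton] at this
      rw [this]
      congr 1
      ext
      simp
  rw [e, Fintype.card_piFinset]
  have : ∀ p : Fin n, (if h : i ≤ p.val ∧ p.val < i + l then
      ({w ⟨p.val - i, by omega⟩} : Finset (Fin D)) else Finset.univ).card =
      if i ≤ p.val ∧ p.val < i + l then 1 else D := by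
    intro p
    split_ifs with hp
    · exact Finset.card_singleton _
    · rw [Finset.card_univ, Fintype.card_fin]
  rw [Finset.prod_congr rfl fun p _ => this p, Finset.prod_ite]
  simp only [Finset.prod_const_one, Finset.prod_const, one_mul]
  congr 1
  have h1 : (Finset.univ.filter fun p : Fin n => i ≤ p.val ∧ p.val < i + l).card = l := by
    have : (Finset.univ.filter fun p : Fin n => i ≤ p.val ∧ p.val < i + l).map
        Fin.valEmbedding = Finset.Ico i (i + l) := by
      ext q
      simp only [Finset.mem_map, Finset.mem_filter, Finset.mem_univ, true_and,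
        Fin.valEmbedding_apply, Finset.mem_Ico]
      constructor
      · rintro ⟨p, hp, rfl⟩
        exact hp
      · intro hq
        exact ⟨⟨q, by omega⟩, hq, rfl⟩
    have hc := congrArg Finset.card this
    rw [Finset.card_map, Nat.card_Ico] at hc
    omega
  have h2 := Finset.card_filter_add_card_filter_not (s := (Finset.univ : Finset (Fin n)))
    (fun p : Fin n => i ≤ p.val ∧ p.val < i + l)
  rw [h1, Finset.card_univ, Fintype.card_fin] at h2
  omega

theorem CO_sum_occ (D n l : ℕ) (hln : l ≤ n) (w : Word D l) :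
    ∑ x : Word D n, (occ x w : ℝ) = ((n + 1 - l : ℕ) : ℝ) * (D : ℝ) ^ (n - l) := by
  classical
  have h : ∑ x : Word D n, occ x w = (n + 1 - l) * D ^ (n - l) := by
    unfold occ
    simp only [Finset.card_filter]
    rw [Finset.sum_comm]
    rw [Finset.sum_congr rfl (g := fun _ => D ^ (n - l))]
    · rw [Finset.sum_const, Finset.card_range, smul_eq_mul]
    · intro i hi
      rw [Finset.mem_range] at hi
      rw [← CO_card_occurs D n l w i (by omega), Finset.card_filter]
  exact_mod_cast h

theorem CO_occ_diff (D n l : ℕ) (w : Word D l) (x : Word D n) (i : Fin n)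
    (a : Fin D) : |(occ (Function.update x i a) w : ℝ) - (occ x w : ℝ)| ≤ l := by
  classical
  have key : ∀ (x y : Word D n), (∀ p, p ≠ i → x p = y p) → occ x w ≤ occ y w + l := by
    intro x y hxy
    unfold occ
    have hsub : ((Finset.range (n + 1 - l)).filter fun i' => Occurs x i' w) ⊆
        ((Finset.range (n + 1 - l)).filter fun i' => Occurs y i' w) ∪
          Finset.Ico (i.val + 1 - l) (i.val + 1) := by
      intro i' hi'
      rw [Finset.mem_filter] at hi'
      obtain ⟨hr, ho, hw⟩ := hi'
      rw [Finset.mem_union]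
      by_cases hb : i.val + 1 - l ≤ i' ∧ i' < i.val + 1
      · right
        rw [Finset.mem_Ico]
        exact hb
      · left
        rw [Finset.mem_filter]
        refine ⟨hr, ho, fun j => ?_⟩
        rw [← hw j]
        symm
        apply hxy
        intro he
        have := congrArg Fin.val he
        simp only at this
        omega
    refine (Finset.card_le_card hsub).trans ((Finset.card_union_le _ _).trans ?_)
    rw [Nat.card_Ico]
    omega
  have h1 := key (Function.update x i a) x (fun p hp => Function.update_of_ne hp _ _)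
  have h2 := key x (Function.update x i a) (fun p hp => (Function.update_of_ne hp _ _).symm)
  have h1' : (occ (Function.update x i a) w : ℝ) ≤ occ x w + l := by exact_mod_cast h1
  have h2' : (occ x w : ℝ) ≤ occ (Function.update x i a) w + l := by exact_mod_cast h2
  rw [abs_le]
  constructor <;> linarith

/-- one-sided Chernoff bound -/
theorem CO_chernoff (D n : ℕ) (hD : 1 ≤ D) (hn : 1 ≤ n) (F : Word D n → ℝ) (c : ℝ)
    (hc0 : 0 < c)
    (hc : ∀ (x : Word D n) (i : Fin n) (a : Fin D), |F (Function.update x i a) - F x| ≤ c)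
    (s : ℝ) (hs : 0 < s) :
    ((Finset.univ.filter fun x : Word D n => s < F x - (∑ y, F y) / (D : ℝ) ^ n).card : ℝ) ≤
      (D : ℝ) ^ n * Real.exp (-(s ^ 2 / (4 * n * c ^ 2))) := by
  have hn' : (0 : ℝ) < n := by exact_mod_cast hn
  set m := (∑ y, F y) / (D : ℝ) ^ n with hm
  set t : ℝ := s / (2 * n * c ^ 2) with ht
  have ht0 : 0 < t := by positivity
  have h1 := exp_moment_le D n hD F c hc t
  rw [← hm] at h1
  have h2 : ((Finset.univ.filter fun x : Word D n => s < F x - m).card : ℝ) *
      Real.exp (t * s) ≤ ∑ x, Real.exp (t * (F x - m)) := by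
    rw [← nsmul_eq_mul, ← Finset.sum_const]
    refine (Finset.sum_le_sum (g := fun x => Real.exp (t * (F x - m))) ?_).trans
      (Finset.sum_le_sum_of_subset_of_nonneg (Finset.filter_subset _ _)
        (fun _ _ _ => Real.exp_nonneg _))
    intro x hx
    rw [Finset.mem_filter] at hx
    exact Real.exp_le_exp.mpr (mul_le_mul_of_nonneg_left hx.2.le ht0.le)
  have h3 := h2.trans h1
  rw [← le_div_iff₀ (Real.exp_pos _)] at h3
  refine h3.trans (le_of_eq ?_)
  rw [mul_div_assoc, ← Real.exp_sub]
  congr 2
  rw [ht]
  field_simp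
  ring

theorem card_atyp_le (D n l : ℕ) (hD : 1 ≤ D) (hl : 1 ≤ l) (hln : l ≤ n) (w : Word D l)
    (ε : ℝ) (hε : 0 < ε) :
    ((atyp D n l w ε).card : ℝ) ≤
      2 * (D : ℝ) ^ n * Real.exp (-(ε ^ 2 * ((n : ℝ) - l + 1) ^ 2 / (4 * n * (l : ℝ) ^ 2))) := by
  classical
  have hD' : (0 : ℝ) < D := by exact_mod_cast hD
  have hl' : (0 : ℝ) < l := by exact_mod_cast hl
  have hn : 1 ≤ n := hl.trans hln
  have hNcast : ((n + 1 - l : ℕ) : ℝ) = (n : ℝ) - l + 1 := by
    rw [Nat.cast_sub (by omega)]
    push_cast
    ring
  have hN : (0 : ℝ) < (n : ℝ) - l + 1 := by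
    have : (l : ℝ) ≤ n := by exact_mod_cast hln
    linarith
  set N : ℝ := (n : ℝ) - l + 1 with hNdef
  have hs : 0 < ε * N := mul_pos hε hN
  set F : Word D n → ℝ := fun x => (occ x w : ℝ) with hF
  have hsum : (∑ y, F y) / (D : ℝ) ^ n = N * (1 / (D : ℝ)) ^ l := by
    have h := CO_sum_occ D n l hln w
    rw [hNcast] at h
    simp only [hF]
    rw [h]
    have hp : (D : ℝ) ^ n = (D : ℝ) ^ (n - l) * (D : ℝ) ^ l := by
      rw [← pow_add]
      congr 1
      omega
    rw [hp, one_div, inv_pow]
    have h1 : (D : ℝ) ^ (n - l) ≠ 0 := by positivity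
    have h2 : (D : ℝ) ^ l ≠ 0 := by positivity
    field_simp
  have hFc : ∀ (x : Word D n) (i : Fin n) (a : Fin D),
      |F (Function.update x i a) - F x| ≤ (l : ℝ) := fun x i a => CO_occ_diff D n l w x i a
  have hA := CO_chernoff D n hD hn F l hl' hFc (ε * N) hs
  have hB := CO_chernoff D n hD hn (fun x => -F x) l hl' (by
    intro x i a
    have e : (fun x => -F x) (Function.update x i a) - (fun x => -F x) x =
        -(F (Function.update x i a) - F x) := by ring
    rw [e, abs_neg]
    exact hFc x i a) (ε * N) hs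
  have hsub : atyp D n l w ε ⊆
      (Finset.univ.filter fun x : Word D n => ε * N < F x - (∑ y, F y) / (D : ℝ) ^ n) ∪
      (Finset.univ.filter fun x : Word D n =>
        ε * N < (fun x => -F x) x - (∑ y, (fun x => -F x) y) / (D : ℝ) ^ n) := by
    intro x hx
    unfold atyp at hx
    rw [Finset.mem_filter, hNcast] at hx
    have hx2 := hx.2
    rw [Finset.mem_union, Finset.mem_filter, Finset.mem_filter]
    simp only [Finset.mem_univ, true_and, Finset.sum_neg_distrib]
    rw [neg_div, hsum]
    have e : (occ x w : ℝ) / N - (1 / (D : ℝ)) ^ l =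
        (F x - N * (1 / (D : ℝ)) ^ l) / N := by
      simp only [hF]
      field_simp
    rw [e, abs_div, abs_of_pos hN, lt_div_iff₀ hN, lt_abs] at hx2
    rcases hx2 with h | h
    · left
      exact h
    · right
      linarith
  have hcard : ((atyp D n l w ε).card : ℝ) ≤ _ :=
    le_trans (by exact_mod_cast (Finset.card_le_card hsub).trans (Finset.card_union_le _ _) :
      ((atyp D n l w ε).card : ℝ) ≤
        (((Finset.univ.filter fun x : Word D n =>
          ε * N < F x - (∑ y, F y) / (D : ℝ) ^ n).card : ℕ) : ℝ) +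
        (((Finset.univ.filter fun x : Word D n =>
          ε * N < (fun x => -F x) x - (∑ y, (fun x => -F x) y) / (D : ℝ) ^ n).card : ℕ) : ℝ))
      (add_le_add hA hB)
  refine hcard.trans (le_of_eq ?_)
  rw [mul_pow]
  ring

end Pool.Agent.helper18.RQ
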